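import Mathlib

/-!
# The maximal Schur multiplier norm of `n × n` sign matrices is strictly increasing
-/

namespace Pool.Agent.Results.MP_c77999_an.StrictlyIncreasing

open Matrix
open scoped Matrix.Norms.L2Operator

/-- The Schur multiplier norm (with respect to the operator norm). -/
noncomputable def schurNorm {n : ℕ} (M : Matrix (Fin n) (Fin n) ℂ) : ℝ :=
  sSup {x : ℝ | ∃ A : Matrix (Fin n) (Fin n) ℂ, ‖A‖ ≤ 1 ∧ x = ‖M.hadamard A‖}

/-- The set `𝒬_n` of real sign matrices. -/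
def Q (n : ℕ) : Set (Matrix (Fin n) (Fin n) ℝ) := {M | ∀ i j, M i j = 1 ∨ M i j = -1}

/-- `r_n`, the maximal Schur multiplier norm of an `n × n` sign matrix. -/
noncomputable def r (n : ℕ) : ℝ :=
  sSup {x : ℝ | ∃ M ∈ Q n, x = schurNorm (M.map (fun a : ℝ => (a : ℂ)))}

/-! ### Real contractions -/

section Real

variable {I J : Type} [Fintype I] [Fintype J]

/-- real contraction -/
def IsC (A : Matrix I J ℝ) : Prop := ∀ x : J → ℝ, ∑ i, (A *ᵥ x) i ^ 2 ≤ ∑ j, x j ^ 2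

/-- unit vector with nonnegative entries -/
def U (η : I → ℝ) : Prop := (∀ i, 0 ≤ η i) ∧ ∑ i, η i ^ 2 = 1

/-- the value -/
def val (A : Matrix I J ℝ) (η : I → ℝ) (ξ : J → ℝ) : ℝ := ∑ i, ∑ j, |A i j| * η i * ξ j

theorem IsC.transpose {A : Matrix I J ℝ} (hA : IsC A) : IsC Aᵀ := by
  intro x
  set y := Aᵀ *ᵥ x with hy
  have h1 : ∑ j, y j ^ 2 = ∑ i, x i * (A *ᵥ y) i := by
    have : y ⬝ᵥ y = x ⬝ᵥ (A *ᵥ y) := by
      rw [dotProduct_mulVec x A y, ← mulVec_transpose A x, ← hy]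
    simpa [dotProduct, sq] using this
  have h2 : (∑ i, x i * (A *ᵥ y) i) ^ 2 ≤ (∑ i, x i ^ 2) * ∑ i, (A *ᵥ y) i ^ 2 :=
    Finset.sum_mul_sq_le_sq_mul_sq _ _ _
  have h3 := hA y
  have h4 : 0 ≤ ∑ i, x i ^ 2 := Finset.sum_nonneg fun i _ => sq_nonneg _
  have h5 : 0 ≤ ∑ j, y j ^ 2 := Finset.sum_nonneg fun i _ => sq_nonneg _
  rw [← h1] at h2
  have h6 : (∑ j, y j ^ 2) ^ 2 ≤ (∑ i, x i ^ 2) * ∑ j, y j ^ 2 :=
    h2.trans (mul_le_mul_of_nonneg_left h3 h4)
  rcases h5.eq_or_lt with h7 | h7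
  · rw [← h7]; exact h4
  · nlinarith

theorem val_transpose (A : Matrix I J ℝ) (η : I → ℝ) (ξ : J → ℝ) : val Aᵀ ξ η = val A η ξ := by
  unfold val
  rw [Finset.sum_comm]
  refine Finset.sum_congr rfl fun i _ => Finset.sum_congr rfl fun j _ => ?_
  rw [transpose_apply]; ring

theorem val_reindex {I' J' : Type} [Fintype I'] [Fintype J'] (e : I ≃ I') (f : J ≃ J')
    (A : Matrix I J ℝ) (η : I → ℝ) (ξ : J → ℝ) :
    val (A.submatrix e.symm f.symm) (η ∘ e.symm) (ξ ∘ f.symm) = val A η ξ := by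
  unfold val
  rw [← Equiv.sum_comp e]
  refine Finset.sum_congr rfl fun i _ => ?_
  rw [← Equiv.sum_comp f]
  refine Finset.sum_congr rfl fun j _ => ?_
  simp

theorem IsC.reindex {I' J' : Type} [Fintype I'] [Fintype J'] (e : I ≃ I') (f : J ≃ J')
    {A : Matrix I J ℝ} (hA : IsC A) : IsC (A.submatrix e.symm f.symm) := by
  intro x
  have h := hA (x ∘ f)
  have h1 : ∑ j, (x ∘ f) j ^ 2 = ∑ j, x j ^ 2 := Equiv.sum_comp f (fun j => x j ^ 2)
  have h2 : ∑ i, (A *ᵥ (x ∘ f)) i ^ 2 = ∑ i, (A.submatrix e.symm f.symm *ᵥ x) i ^ 2 := by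
    rw [← Equiv.sum_comp e]
    refine Finset.sum_congr rfl fun i _ => ?_
    congr 1
    simp only [mulVec, dotProduct, submatrix_apply, Equiv.symm_apply_apply]
    rw [← Equiv.sum_comp f]
    simp
  rw [← h1, ← h2]; exact h

theorem U.reindex {I' : Type} [Fintype I'] (e : I ≃ I') {η : I → ℝ} (h : U η) :
    U (η ∘ e.symm) :=
  ⟨fun i => h.1 _, by rw [← h.2]; exact Equiv.sum_comp e.symm (fun i => η i ^ 2)⟩

theorem U.le_one {η : I → ℝ} (h : U η) (i : I) : η i ≤ 1 := by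
  have : η i ^ 2 ≤ 1 := by
    rw [← h.2]
    exact Finset.single_le_sum (f := fun i => η i ^ 2) (fun i _ => sq_nonneg _) (Finset.mem_univ i)
  nlinarith [h.1 i]

theorem val_nonneg {A : Matrix I J ℝ} {η : I → ℝ} {ξ : J → ℝ} (hη : U η) (hξ : U ξ) :
    0 ≤ val A η ξ :=
  Finset.sum_nonneg fun i _ => Finset.sum_nonneg fun j _ =>
    mul_nonneg (mul_nonneg (abs_nonneg _) (hη.1 i)) (hξ.1 j)

theorem IsC.entry [DecidableEq J] {A : Matrix I J ℝ} (hA : IsC A) (i : I) (j : J) : |A i j| ≤ 1 := by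
  have h := hA (Pi.single j 1)
  have h1 : ∑ j', (Pi.single j (1 : ℝ) : J → ℝ) j' ^ 2 = 1 := by
    rw [Finset.sum_eq_single j]
    · simp
    · intro b _ hb; simp [Pi.single_eq_of_ne hb]
    · intro h; exact absurd (Finset.mem_univ _) h
  rw [h1] at h
  have h2 : A i j ^ 2 ≤ ∑ i, (A *ᵥ Pi.single j 1) i ^ 2 := by
    have := Finset.single_le_sum (f := fun i => (A *ᵥ Pi.single j (1 : ℝ)) i ^ 2)
      (fun i _ => sq_nonneg _) (Finset.mem_univ i)
    simpa using this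
  have h3 : A i j ^ 2 ≤ 1 := h2.trans h
  rw [abs_le]; constructor <;> nlinarith

end Real

/-! ### The complex side -/

section Complex

variable {n : ℕ}

theorem norm_sq_mulVec (A : Matrix (Fin n) (Fin n) ℂ) (hA : ‖A‖ ≤ 1) (x : Fin n → ℂ) :
    ∑ i, ‖(A *ᵥ x) i‖ ^ 2 ≤ ∑ j, ‖x j‖ ^ 2 := by
  have h := Matrix.l2_opNorm_mulVec A (WithLp.toLp 2 x)
  have h1 : ‖(EuclideanSpace.equiv (Fin n) ℂ).symm (A *ᵥ x)‖ ≤ ‖WithLp.toLp 2 x‖ :=
    h.trans (by
      have := norm_nonneg (WithLp.toLp 2 x)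
      nlinarith)
  have h2 := pow_le_pow_left₀ (norm_nonneg _) h1 2
  rw [EuclideanSpace.norm_sq_eq, EuclideanSpace.norm_sq_eq] at h2
  exact h2

/-- the unimodular phase -/
noncomputable def ph (z : ℂ) : ℂ := if z = 0 then 1 else z / ‖z‖

theorem ph_mul (z : ℂ) : ph z * ‖z‖ = z := by
  unfold ph
  split_ifs with h
  · simp [h]
  · exact div_mul_cancel₀ z (by simpa using h)

theorem ph_norm (z : ℂ) : ‖ph z‖ = 1 := by
  unfold ph
  split_ifs with h
  · simp
  · rw [norm_div, Complex.norm_real, norm_norm]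
    exact div_self (norm_ne_zero_iff.mpr h)

/-- Upper bound of the complex quantities by real data. -/
theorem hadamard_bound (ρ : ℝ)
    (hρ : ∀ (B : Matrix (Fin n) (Fin n) ℝ) (η ξ : Fin n → ℝ), IsC B → U η → U ξ → val B η ξ ≤ ρ)
    (hρ0 : 0 ≤ ρ) (M : Matrix (Fin n) (Fin n) ℝ) (hM : M ∈ Q n) (A : Matrix (Fin n) (Fin n) ℂ)
    (hA : ‖A‖ ≤ 1) : ‖(M.map (fun a : ℝ => (a : ℂ))).hadamard A‖ ≤ ρ := by
  set W := (M.map (fun a : ℝ => (a : ℂ))).hadamard A with hW
  rw [← l2_opNorm_toEuclideanCLM]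
  refine ContinuousLinearMap.opNorm_le_bound _ hρ0 fun x => ?_
  set X : Fin n → ℂ := WithLp.ofLp x with hX
  set Y : Fin n → ℂ := W *ᵥ X with hY
  have hy : toEuclideanCLM (n := Fin n) (𝕜 := ℂ) W x = WithLp.toLp 2 Y := rfl
  rw [hy]
  rcases eq_or_ne (WithLp.toLp 2 Y) 0 with h0 | h0
  · rw [h0, norm_zero]; positivity
  have hx0 : x ≠ 0 := by
    rintro rfl
    apply h0
    have : Y = 0 := by rw [hY, hX]; simp
    rw [this]; rfl
  set a := ‖x‖ with ha
  set b := ‖WithLp.toLp 2 Y‖ with hb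
  have ha0 : 0 < a := norm_pos_iff.mpr hx0
  have hb0 : 0 < b := norm_pos_iff.mpr h0
  have ha2 : a ^ 2 = ∑ j, ‖X j‖ ^ 2 := EuclideanSpace.norm_sq_eq x
  have hb2 : b ^ 2 = ∑ i, ‖Y i‖ ^ 2 := EuclideanSpace.norm_sq_eq _
  set B : Matrix (Fin n) (Fin n) ℝ :=
    Matrix.of fun i j => (star (ph (Y i)) * A i j * ph (X j)).re with hB
  have hBC : IsC B := by
    intro z
    have h1 := norm_sq_mulVec A hA (fun j => ph (X j) * z j)
    have h2 : ∑ j, ‖ph (X j) * (z j : ℂ)‖ ^ 2 = ∑ j, z j ^ 2 := by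
      refine Finset.sum_congr rfl fun j _ => ?_
      rw [norm_mul, ph_norm, one_mul, Complex.norm_real, Real.norm_eq_abs, sq_abs]
    rw [h2] at h1
    refine le_trans (Finset.sum_le_sum fun i _ => ?_) h1
    have h3 : (B *ᵥ z) i = (star (ph (Y i)) * (A *ᵥ fun j => ph (X j) * (z j : ℂ)) i).re := by
      simp only [mulVec, dotProduct, hB, of_apply, Finset.mul_sum, Complex.re_sum]
      refine Finset.sum_congr rfl fun j _ => ?_
      have : star (ph (Y i)) * (A i j * (ph (X j) * (z j : ℂ))) =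
          (star (ph (Y i)) * A i j * ph (X j)) * (z j : ℂ) := by ring
      rw [this, Complex.re_mul_ofReal]
    rw [h3, ← sq_abs]
    refine pow_le_pow_left₀ (abs_nonneg _) ?_ 2
    refine (Complex.abs_re_le_norm _).trans ?_
    rw [norm_mul, norm_star, ph_norm, one_mul]
  have hη : U fun i => ‖Y i‖ / b := by
    refine ⟨fun i => by positivity, ?_⟩
    simp only [div_pow]
    rw [← Finset.sum_div, ← hb2]
    exact div_self (by positivity)
  have hξ : U fun j => ‖X j‖ / a := by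
    refine ⟨fun i => by positivity, ?_⟩
    simp only [div_pow]
    rw [← Finset.sum_div, ← ha2]
    exact div_self (by positivity)
  have hval := hρ B _ _ hBC hη hξ
  have hkey : b ^ 2 ≤ a * b * val B (fun i => ‖Y i‖ / b) (fun j => ‖X j‖ / a) := by
    have h1 : (b ^ 2 : ℝ) = ∑ i, ∑ j, M i j * B i j * ‖X j‖ * ‖Y i‖ := by
      rw [hb2]
      refine Finset.sum_congr rfl fun i _ => ?_
      have h2 : ((‖Y i‖ ^ 2 : ℝ) : ℂ) = star (Y i) * ∑ j, (M i j : ℂ) * A i j * X j := by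
        have h3 : ∑ j, (M i j : ℂ) * A i j * X j = Y i := by
          rw [hY]
          simp [mulVec, dotProduct, hW, hadamard_apply]
        rw [h3]
        push_cast
        exact (Complex.conj_mul' (Y i)).symm
      have h4 : (‖Y i‖ ^ 2 : ℝ) = (star (Y i) * ∑ j, (M i j : ℂ) * A i j * X j).re := by
        rw [← h2, Complex.ofReal_re]
      rw [h4, Finset.mul_sum, Complex.re_sum]
      refine Finset.sum_congr rfl fun j _ => ?_
      have h5 : star (Y i) * ((M i j : ℂ) * A i j * X j) =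
          (star (ph (Y i)) * A i j * ph (X j)) * ((M i j * ‖X j‖ * ‖Y i‖ : ℝ) : ℂ) := by
        conv_lhs => rw [← ph_mul (Y i), ← ph_mul (X j)]
        rw [star_mul']
        have : star ((‖Y i‖ : ℝ) : ℂ) = ((‖Y i‖ : ℝ) : ℂ) := Complex.conj_ofReal _
        rw [this]
        push_cast
        ring
      rw [h5, Complex.re_mul_ofReal, hB, of_apply]
      ring
    rw [h1, val, Finset.mul_sum]
    refine Finset.sum_le_sum fun i _ => ?_
    rw [Finset.mul_sum]
    refine Finset.sum_le_sum fun j _ => ?_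
    have h6 : a * b * (|B i j| * (‖Y i‖ / b) * (‖X j‖ / a)) = |B i j| * (‖X j‖ * ‖Y i‖) := by
      field_simp
    rw [h6]
    have h7 : M i j * B i j ≤ |B i j| := by
      rcases hM i j with h | h <;> rw [h]
      · rw [one_mul]; exact le_abs_self _
      · rw [neg_one_mul]; exact neg_le_abs _
    calc M i j * B i j * ‖X j‖ * ‖Y i‖ = (M i j * B i j) * (‖X j‖ * ‖Y i‖) := by ring
      _ ≤ |B i j| * (‖X j‖ * ‖Y i‖) := mul_le_mul_of_nonneg_right h7 (by positivity)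
  have : b ^ 2 ≤ a * b * ρ := hkey.trans (mul_le_mul_of_nonneg_left hval (by positivity))
  nlinarith

end Complex

/-! ### Compactness -/

section Compact

variable {n : ℕ}

/-- admissible data -/
def Dat (n : ℕ) : Set (Matrix (Fin n) (Fin n) ℝ × (Fin n → ℝ) × (Fin n → ℝ)) :=
  {p | IsC p.1 ∧ U p.2.1 ∧ U p.2.2}

theorem val_cont : Continuous fun p : Matrix (Fin n) (Fin n) ℝ × (Fin n → ℝ) × (Fin n → ℝ) =>
    val p.1 p.2.1 p.2.2 := by
  unfold val
  fun_prop

theorem dat_compact : IsCompact (Dat n) := by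
  have hclosed : IsClosed (Dat n) := by
    have h1 : IsClosed {p : Matrix (Fin n) (Fin n) ℝ × (Fin n → ℝ) × (Fin n → ℝ) | IsC p.1} := by
      unfold IsC
      simp only [Set.ofPred_forall]
      refine isClosed_iInter fun x => isClosed_le ?_ continuous_const
      unfold mulVec dotProduct
      fun_prop
    have h2 : IsClosed {p : Matrix (Fin n) (Fin n) ℝ × (Fin n → ℝ) × (Fin n → ℝ) | U p.2.1} := by
      have e : {p : Matrix (Fin n) (Fin n) ℝ × (Fin n → ℝ) × (Fin n → ℝ) | U p.2.1} =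
          (⋂ i, {p | 0 ≤ p.2.1 i}) ∩ {p | ∑ i, p.2.1 i ^ 2 = 1} := by
        ext p; simp [U]
      rw [e]
      exact IsClosed.inter (isClosed_iInter fun i => isClosed_le continuous_const (by fun_prop))
        (isClosed_eq (by fun_prop) continuous_const)
    have h3 : IsClosed {p : Matrix (Fin n) (Fin n) ℝ × (Fin n → ℝ) × (Fin n → ℝ) | U p.2.2} := by
      have e : {p : Matrix (Fin n) (Fin n) ℝ × (Fin n → ℝ) × (Fin n → ℝ) | U p.2.2} =
          (⋂ i, {p | 0 ≤ p.2.2 i}) ∩ {p | ∑ i, p.2.2 i ^ 2 = 1} := by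
        ext p; simp [U]
      rw [e]
      exact IsClosed.inter (isClosed_iInter fun i => isClosed_le continuous_const (by fun_prop))
        (isClosed_eq (by fun_prop) continuous_const)
    exact h1.inter (h2.inter h3)
  have hc : IsCompact ((Set.pi Set.univ fun _ : Fin n => Set.pi Set.univ fun _ : Fin n =>
      Set.Icc (-1 : ℝ) 1) ×ˢ ((Set.pi Set.univ fun _ : Fin n => Set.Icc (0 : ℝ) 1) ×ˢ
      (Set.pi Set.univ fun _ : Fin n => Set.Icc (0 : ℝ) 1)) :
      Set ((Fin n → Fin n → ℝ) × (Fin n → ℝ) × (Fin n → ℝ))) :=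
    (isCompact_univ_pi fun _ => isCompact_univ_pi fun _ => isCompact_Icc).prod
      ((isCompact_univ_pi fun _ => isCompact_Icc).prod (isCompact_univ_pi fun _ => isCompact_Icc))
  refine IsCompact.of_isClosed_subset hc hclosed ?_
  rintro ⟨A, η, ξ⟩ ⟨hA, hη, hξ⟩
  refine ⟨fun i _ j _ => ?_, fun i _ => ⟨hη.1 i, hη.le_one i⟩, fun i _ => ⟨hξ.1 i, hξ.le_one i⟩⟩
  exact abs_le.mp (hA.entry i j)

theorem dat_nonempty (hn : 1 ≤ n) : (Dat n).Nonempty := by
  have h : U (Pi.single (⟨0, hn⟩ : Fin n) (1 : ℝ)) := by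
    refine ⟨fun i => ?_, ?_⟩
    · by_cases h : i = ⟨0, hn⟩
      · rw [h]; simp
      · rw [Pi.single_eq_of_ne h]
    · rw [Finset.sum_eq_single ⟨0, hn⟩]
      · simp
      · intro b _ hb; simp [Pi.single_eq_of_ne hb]
      · intro h; exact absurd (Finset.mem_univ _) h
  exact ⟨(0, _, _), fun x => by simp [Finset.sum_nonneg fun j _ => sq_nonneg (x j)], h, h⟩

end Compact

/-! ### `r_n` is the maximum over real data -/

section Max

variable {n : ℕ}

theorem schur_bdd (M : Matrix (Fin n) (Fin n) ℝ) (hM : M ∈ Q n) (ρ : ℝ)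
    (hρ : ∀ (B : Matrix (Fin n) (Fin n) ℝ) (η ξ : Fin n → ℝ), IsC B → U η → U ξ → val B η ξ ≤ ρ)
    (hρ0 : 0 ≤ ρ) :
    BddAbove {x : ℝ | ∃ A : Matrix (Fin n) (Fin n) ℂ, ‖A‖ ≤ 1 ∧
      x = ‖(M.map (fun a : ℝ => (a : ℂ))).hadamard A‖} := by
  refine ⟨ρ, ?_⟩
  rintro x ⟨A, hA, rfl⟩
  exact hadamard_bound ρ hρ hρ0 M hM A hA

theorem schur_le (M : Matrix (Fin n) (Fin n) ℝ) (hM : M ∈ Q n) (ρ : ℝ)
    (hρ : ∀ (B : Matrix (Fin n) (Fin n) ℝ) (η ξ : Fin n → ℝ), IsC B → U η → U ξ → val B η ξ ≤ ρ)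
    (hρ0 : 0 ≤ ρ) : schurNorm (M.map (fun a : ℝ => (a : ℂ))) ≤ ρ := by
  refine csSup_le ⟨_, 0, by simp, rfl⟩ ?_
  rintro x ⟨A, hA, rfl⟩
  exact hadamard_bound ρ hρ hρ0 M hM A hA

/-- complexification of a real contraction -/
theorem complexify (A : Matrix (Fin n) (Fin n) ℝ) (hA : IsC A) :
    ‖A.map (fun a : ℝ => (a : ℂ))‖ ≤ 1 := by
  rw [← l2_opNorm_toEuclideanCLM]
  refine ContinuousLinearMap.opNorm_le_bound _ zero_le_one fun x => ?_
  rw [one_mul]
  refine le_of_sq_le_sq ?_ (norm_nonneg _)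
  rw [EuclideanSpace.norm_sq_eq, EuclideanSpace.norm_sq_eq]
  have h1 := hA (fun j => (x j).re)
  have h2 := hA (fun j => (x j).im)
  have h3 : ∀ i, ‖(toEuclideanCLM (n := Fin n) (𝕜 := ℂ) (A.map (fun a : ℝ => (a : ℂ))) x) i‖ ^ 2 =
      (A *ᵥ fun j => (x j).re) i ^ 2 + (A *ᵥ fun j => (x j).im) i ^ 2 := by
    intro i
    have : (toEuclideanCLM (n := Fin n) (𝕜 := ℂ) (A.map (fun a : ℝ => (a : ℂ))) x) i =
        ∑ j, (A i j : ℂ) * x j := rfl
    rw [this, ← Complex.normSq_eq_norm_sq, Complex.normSq_apply, Complex.re_sum, Complex.im_sum]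
    simp only [mulVec, dotProduct, Complex.re_ofReal_mul, Complex.im_ofReal_mul]
    ring
  have h4 : ∀ j, ‖x j‖ ^ 2 = (x j).re ^ 2 + (x j).im ^ 2 := by
    intro j
    rw [← Complex.normSq_eq_norm_sq, Complex.normSq_apply]; ring
  simp only [h3, h4, Finset.sum_add_distrib]
  exact add_le_add h1 h2

theorem val_le_norm (A : Matrix (Fin n) (Fin n) ℝ) (η ξ : Fin n → ℝ) (hη : U η) (hξ : U ξ)
    (M : Matrix (Fin n) (Fin n) ℝ) (hM : ∀ i j, M i j * A i j = |A i j|) :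
    val A η ξ ≤ ‖(M.map (fun a : ℝ => (a : ℂ))).hadamard (A.map (fun a : ℝ => (a : ℂ)))‖ := by
  set W := (M.map (fun a : ℝ => (a : ℂ))).hadamard (A.map (fun a : ℝ => (a : ℂ))) with hW
  set x : EuclideanSpace ℂ (Fin n) := WithLp.toLp 2 (fun j => (ξ j : ℂ)) with hx
  set y : EuclideanSpace ℂ (Fin n) := WithLp.toLp 2 (fun j => (η j : ℂ)) with hy
  have hnx : ‖x‖ = 1 := by
    rw [EuclideanSpace.norm_eq]
    have : ∑ i, ‖x i‖ ^ 2 = 1 := by
      rw [← hξ.2]
      refine Finset.sum_congr rfl fun i _ => ?_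
      rw [hx]
      change ‖(ξ i : ℂ)‖ ^ 2 = _
      rw [Complex.norm_real, Real.norm_eq_abs, sq_abs]
    rw [this, Real.sqrt_one]
  have hny : ‖y‖ = 1 := by
    rw [EuclideanSpace.norm_eq]
    have : ∑ i, ‖y i‖ ^ 2 = 1 := by
      rw [← hη.2]
      refine Finset.sum_congr rfl fun i _ => ?_
      rw [hy]
      change ‖(η i : ℂ)‖ ^ 2 = _
      rw [Complex.norm_real, Real.norm_eq_abs, sq_abs]
    rw [this, Real.sqrt_one]
  have h1 : ‖inner ℂ y (toEuclideanCLM (n := Fin n) (𝕜 := ℂ) W x)‖ ≤ ‖W‖ := by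
    refine (norm_inner_le_norm _ _).trans ?_
    rw [hny, one_mul]
    refine (ContinuousLinearMap.le_opNorm _ _).trans ?_
    rw [hnx, mul_one, l2_opNorm_toEuclideanCLM]
  refine le_trans ?_ h1
  have h2 : inner ℂ y (toEuclideanCLM (n := Fin n) (𝕜 := ℂ) W x) = ((val A η ξ : ℝ) : ℂ) := by
    rw [PiLp.inner_apply]
    unfold val
    push_cast
    refine Finset.sum_congr rfl fun i _ => ?_
    have e1 : (toEuclideanCLM (n := Fin n) (𝕜 := ℂ) W x) i = ∑ j, W i j * (ξ j : ℂ) := rfl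
    have e2 : y i = (η i : ℂ) := rfl
    rw [e1, e2, RCLike.inner_apply, Complex.conj_ofReal, Finset.sum_mul]
    refine Finset.sum_congr rfl fun j _ => ?_
    rw [hW, hadamard_apply, map_apply, map_apply, ← hM i j]
    push_cast
    ring
  rw [h2, Complex.norm_real]
  exact le_abs_self _

theorem exists_sign (a : ℝ) : ∃ m : ℝ, (m = 1 ∨ m = -1) ∧ m * a = |a| := by
  rcases le_or_gt 0 a with h | h
  · exact ⟨1, Or.inl rfl, by rw [one_mul, abs_of_nonneg h]⟩
  · exact ⟨-1, Or.inr rfl, by rw [neg_one_mul, abs_of_neg h]⟩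

/-- `r_n` is the maximum of `val` over the admissible data. -/
theorem r_spec (hn : 1 ≤ n) :
    (∀ (A : Matrix (Fin n) (Fin n) ℝ) (η ξ : Fin n → ℝ), IsC A → U η → U ξ → val A η ξ ≤ r n) ∧
    ∃ (A : Matrix (Fin n) (Fin n) ℝ) (η ξ : Fin n → ℝ), IsC A ∧ U η ∧ U ξ ∧ val A η ξ = r n := by
  obtain ⟨⟨A₀, η₀, ξ₀⟩, hmem, hmax⟩ :=
    dat_compact.exists_isMaxOn (dat_nonempty hn) (val_cont (n := n)).continuousOn
  set ρ := val A₀ η₀ ξ₀ with hρdef
  have hρ : ∀ (B : Matrix (Fin n) (Fin n) ℝ) (η ξ : Fin n → ℝ), IsC B → U η → U ξ →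
      val B η ξ ≤ ρ := fun B η ξ h1 h2 h3 => hmax (⟨h1, h2, h3⟩ : (B, η, ξ) ∈ Dat n)
  have hρ0 : 0 ≤ ρ := val_nonneg hmem.2.1 hmem.2.2
  have hbdd : BddAbove {x : ℝ | ∃ M ∈ Q n, x = schurNorm (M.map (fun a : ℝ => (a : ℂ)))} := by
    refine ⟨ρ, ?_⟩
    rintro x ⟨M, hM, rfl⟩
    exact schur_le M hM ρ hρ hρ0
  have hle : r n ≤ ρ := by
    refine csSup_le ⟨_, Matrix.of fun _ _ => 1, fun _ _ => Or.inl rfl, rfl⟩ ?_
    rintro x ⟨M, hM, rfl⟩
    exact schur_le M hM ρ hρ hρ0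
  have hge : ∀ (A : Matrix (Fin n) (Fin n) ℝ) (η ξ : Fin n → ℝ), IsC A → U η → U ξ →
      val A η ξ ≤ r n := by
    intro A η ξ hA hη hξ
    choose m hm1 hm2 using fun i j => exists_sign (A i j)
    have hMQ : (Matrix.of m : Matrix (Fin n) (Fin n) ℝ) ∈ Q n := fun i j => hm1 i j
    refine (val_le_norm A η ξ hη hξ (Matrix.of m) (fun i j => hm2 i j)).trans ?_
    refine le_trans (le_csSup (schur_bdd (Matrix.of m) hMQ ρ hρ hρ0)
      ⟨_, complexify A hA, rfl⟩) ?_
    exact le_csSup hbdd ⟨_, hMQ, rfl⟩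
  refine ⟨hge, A₀, η₀, ξ₀, hmem.1, hmem.2.1, hmem.2.2, ?_⟩
  exact le_antisymm (hge A₀ η₀ ξ₀ hmem.1 hmem.2.1 hmem.2.2) hle

/-- transfer to arbitrary finite index types -/
theorem val_le_r {I J : Type} [Fintype I] [Fintype J] (hn : 1 ≤ n) (hI : Fintype.card I = n)
    (hJ : Fintype.card J = n) (A : Matrix I J ℝ) (η : I → ℝ) (ξ : J → ℝ) (hA : IsC A) (hη : U η)
    (hξ : U ξ) : val A η ξ ≤ r n := by
  have e : I ≃ Fin n := Fintype.equivFinOfCardEq hI
  have f : J ≃ Fin n := Fintype.equivFinOfCardEq hJ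
  rw [← val_reindex e f]
  exact (r_spec hn).1 _ _ _ (hA.reindex e f) (hη.reindex e) (hξ.reindex f)

end Max

/-! ### First-order gain: adding a row -/

section AddRow

variable {n : ℕ}

/-- bordered matrix -/
def bord {I J : Type} (A : Matrix I J ℝ) (x : I → ℝ) (y : J → ℝ) (z : ℝ) :
    Matrix (Option I) (Option J) ℝ := Matrix.of fun i j =>
  match i, j with
  | none, none => z
  | none, some j => y j
  | some i, none => x i
  | some i, some j => A i j

/-- extended vector -/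
def vc {I : Type} (s : ℝ) (η : I → ℝ) : Option I → ℝ := fun o => match o with
  | none => s
  | some i => η i

theorem bord_mulVec {I J : Type} [Fintype I] [Fintype J] (A : Matrix I J ℝ) (x : I → ℝ)
    (y : J → ℝ) (z : ℝ) (v : Option J → ℝ) :
    (∀ i, (bord A x y z *ᵥ v) (some i) = x i * v none + (A *ᵥ fun j => v (some j)) i) ∧
    (bord A x y z *ᵥ v) none = z * v none + y ⬝ᵥ fun j => v (some j) := by
  constructor
  · intro i
    simp [mulVec, dotProduct, Fintype.sum_option, bord]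
  · simp [mulVec, dotProduct, Fintype.sum_option, bord]

theorem val_bord {I J : Type} [Fintype I] [Fintype J] (A : Matrix I J ℝ) (x : I → ℝ)
    (y : J → ℝ) (z s t : ℝ) (η : I → ℝ) (ξ : J → ℝ) :
    val (bord A x y z) (vc s η) (vc t ξ) = |z| * s * t + ∑ j, |y j| * s * ξ j +
      (∑ i, |x i| * η i * t + val A η ξ) := by
  unfold val
  rw [Fintype.sum_option]
  simp only [Fintype.sum_option, bord, of_apply, vc, Finset.sum_add_distrib]

theorem U_vc {I : Type} [Fintype I] (s c : ℝ) (η : I → ℝ) (hη : U η) (hs : 0 ≤ s) (hc : 0 ≤ c)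
    (h : c ^ 2 + s ^ 2 = 1) : U (vc s (fun i => c * η i)) := by
  refine ⟨fun i => ?_, ?_⟩
  · match i with
    | none => exact hs
    | some i => exact mul_nonneg hc (hη.1 i)
  · rw [Fintype.sum_option]
    simp only [vc, mul_pow]
    rw [← Finset.mul_sum, hη.2]; linarith

/-- Extended contraction: a new row `y` with `A^T A + y y^T ≤ 1`. -/
theorem isC_addRow {I J : Type} [Fintype I] [Fintype J] (A : Matrix I J ℝ) (y : J → ℝ)
    (h : ∀ x : J → ℝ, ∑ i, (A *ᵥ x) i ^ 2 + (y ⬝ᵥ x) ^ 2 ≤ ∑ j, x j ^ 2) :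
    IsC (bord A 0 y 0) := by
  intro x
  rw [Fintype.sum_option, Fintype.sum_option]
  have h1 := h (fun j => x (some j))
  have e := bord_mulVec A 0 y 0 x
  simp only [e.1, e.2, Pi.zero_apply, zero_mul, zero_add]
  nlinarith [sq_nonneg (x none)]

/-- elementary gain: `r c + g s > r` for some unit vector `(c, s)` -/
theorem exists_gain (ρ g : ℝ) (hρ : 0 ≤ ρ) (hg : 0 < g) :
    ∃ c s : ℝ, 0 ≤ c ∧ 0 ≤ s ∧ c ^ 2 + s ^ 2 = 1 ∧ ρ < ρ * c + g * s := by
  set N := Real.sqrt (ρ ^ 2 + g ^ 2) with hN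
  have hpos : 0 < ρ ^ 2 + g ^ 2 := by positivity
  have hN0 : 0 < N := Real.sqrt_pos.mpr hpos
  have hN2 : N ^ 2 = ρ ^ 2 + g ^ 2 := Real.sq_sqrt hpos.le
  refine ⟨ρ / N, g / N, by positivity, by positivity, ?_, ?_⟩
  · rw [div_pow, div_pow, ← add_div, hN2]; exact div_self hpos.ne'
  · have : ρ * (ρ / N) + g * (g / N) = N := by
      field_simp; linarith
    rw [this]
    nlinarith [sq_nonneg g]

/-- If the contraction `A` with positive `ξ` admits an additional row, the value increases. -/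
theorem gain_row (hn : 1 ≤ n) (A : Matrix (Fin n) (Fin n) ℝ) (η ξ : Fin n → ℝ) (hη : U η)
    (hξ : U ξ) (hξ0 : ∀ j, 0 < ξ j) (y : Fin n → ℝ) (hy : y ≠ 0)
    (h : ∀ x : Fin n → ℝ, ∑ i, (A *ᵥ x) i ^ 2 + (y ⬝ᵥ x) ^ 2 ≤ ∑ j, x j ^ 2) :
    val A η ξ < r (n + 1) := by
  have hg : 0 < ∑ j, |y j| * ξ j := by
    obtain ⟨j, hj⟩ := Function.ne_iff.mp hy
    refine Finset.sum_pos' (fun j _ => mul_nonneg (abs_nonneg _) (hξ0 j).le)
      ⟨j, Finset.mem_univ _, mul_pos (abs_pos.mpr hj) (hξ0 j)⟩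
  obtain ⟨c, s, hc, hs, hcs, hlt⟩ := exists_gain (val A η ξ) _ (val_nonneg hη hξ) hg
  refine lt_of_lt_of_le hlt ?_
  have hU1 : U (vc (I := Fin n) 0 ξ) := by
    have := U_vc 0 1 ξ hξ le_rfl zero_le_one (by norm_num)
    simpa using this
  have h1 := val_le_r (n := n + 1) (by omega) (by simp) (by simp) (bord A 0 y 0)
    (vc s fun i => c * η i) (vc 0 ξ) (isC_addRow A y h) (U_vc s c η hη hs hc hcs) hU1
  rw [val_bord] at h1
  refine le_trans (le_of_eq ?_) h1
  unfold val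
  simp only [mul_zero, Finset.sum_const_zero, zero_add]
  rw [Finset.sum_mul, Finset.sum_mul, add_comm]
  congr 1
  · refine Finset.sum_congr rfl fun j _ => by ring
  · refine Finset.sum_congr rfl fun i _ => ?_
    rw [Finset.sum_mul]
    refine Finset.sum_congr rfl fun j _ => by ring

/-- If `A` is a contraction which is not an isometry then a row can be added. -/
theorem exists_row (A : Matrix (Fin n) (Fin n) ℝ) (hA : IsC A) (u : Fin n → ℝ)
    (hu : ∑ i, (A *ᵥ u) i ^ 2 < ∑ j, u j ^ 2) :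
    ∃ y : Fin n → ℝ, y ≠ 0 ∧
      ∀ x : Fin n → ℝ, ∑ i, (A *ᵥ x) i ^ 2 + (y ⬝ᵥ x) ^ 2 ≤ ∑ j, x j ^ 2 := by
  set G : Matrix (Fin n) (Fin n) ℝ := 1 - Aᵀ * A with hG
  have hform : ∀ x z : Fin n → ℝ, z ⬝ᵥ (G *ᵥ x) = z ⬝ᵥ x - (A *ᵥ z) ⬝ᵥ (A *ᵥ x) := by
    intro x z
    rw [hG, sub_mulVec, one_mulVec, dotProduct_sub, ← mulVec_mulVec, dotProduct_mulVec z Aᵀ,
      vecMul_transpose]
  have hsq : ∀ x : Fin n → ℝ, x ⬝ᵥ x = ∑ j, x j ^ 2 := fun x => by simp [dotProduct, sq]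
  have hnn : ∀ x : Fin n → ℝ, 0 ≤ x ⬝ᵥ (G *ᵥ x) := by
    intro x
    rw [hform, hsq, hsq]
    have := hA x
    linarith
  set q := u ⬝ᵥ (G *ᵥ u) with hq
  have hq0 : 0 < q := by
    rw [hq, hform, hsq, hsq]; linarith
  have hsymm : ∀ x z : Fin n → ℝ, z ⬝ᵥ (G *ᵥ x) = x ⬝ᵥ (G *ᵥ z) := by
    intro x z
    rw [hform, hform, dotProduct_comm z x, dotProduct_comm (A *ᵥ z)]
  refine ⟨(Real.sqrt q)⁻¹ • (G *ᵥ u), ?_, ?_⟩
  · intro h
    have h1 : (Real.sqrt q)⁻¹ ≠ 0 := inv_ne_zero (Real.sqrt_pos.mpr hq0).ne'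
    have h2 : G *ᵥ u = 0 := (smul_eq_zero.mp h).resolve_left h1
    rw [hq, h2, dotProduct_zero] at hq0
    exact lt_irrefl _ hq0
  · intro x
    have h1 : ((Real.sqrt q)⁻¹ • (G *ᵥ u)) ⬝ᵥ x = (Real.sqrt q)⁻¹ * (x ⬝ᵥ (G *ᵥ u)) := by
      rw [smul_dotProduct, dotProduct_comm, smul_eq_mul]
    rw [h1, mul_pow, inv_pow, Real.sq_sqrt hq0.le]
    -- Cauchy-Schwarz for `G`
    have h2 : (x ⬝ᵥ (G *ᵥ u)) ^ 2 ≤ q * (x ⬝ᵥ (G *ᵥ x)) := by
      have h3 := hnn (q • x - (x ⬝ᵥ (G *ᵥ u)) • u)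
      rw [mulVec_sub, mulVec_smul, mulVec_smul, sub_dotProduct, dotProduct_sub, dotProduct_sub,
        smul_dotProduct, smul_dotProduct, smul_dotProduct, smul_dotProduct, dotProduct_smul,
        dotProduct_smul, dotProduct_smul, dotProduct_smul, ← hq, hsymm x u] at h3
      simp only [smul_eq_mul] at h3
      nlinarith
    have h4 : q⁻¹ * (x ⬝ᵥ (G *ᵥ u)) ^ 2 ≤ x ⬝ᵥ (G *ᵥ x) := by
      rw [inv_mul_le_iff₀ hq0]; exact h2
    have h5 := hform x x
    rw [hsq, hsq] at h5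
    linarith

/-- a zero row gives a new row -/
theorem exists_row_of_zero (A : Matrix (Fin n) (Fin n) ℝ) (hA : IsC A) (i₀ : Fin n)
    (h0 : ∀ j, A i₀ j = 0) :
    ∃ y : Fin n → ℝ, y ≠ 0 ∧
      ∀ x : Fin n → ℝ, ∑ i, (A *ᵥ x) i ^ 2 + (y ⬝ᵥ x) ^ 2 ≤ ∑ j, x j ^ 2 := by
  have hdet : A.det = 0 := Matrix.det_eq_zero_of_row_eq_zero i₀ h0
  obtain ⟨v, hv0, hv⟩ := Matrix.exists_mulVec_eq_zero_iff.mpr hdet
  have hsq : ∀ x : Fin n → ℝ, x ⬝ᵥ x = ∑ j, x j ^ 2 := fun x => by simp [dotProduct, sq]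
  set q := v ⬝ᵥ v with hq
  have hq0 : 0 < q := by
    rcases (show 0 ≤ q by rw [hq, hsq]; positivity).eq_or_lt with h | h
    · exact absurd (dotProduct_self_eq_zero.mp h.symm) hv0
    · exact h
  refine ⟨(Real.sqrt q)⁻¹ • v, ?_, ?_⟩
  · intro h
    exact hv0 ((smul_eq_zero.mp h).resolve_left (inv_ne_zero (Real.sqrt_pos.mpr hq0).ne'))
  · intro x
    rw [smul_dotProduct, smul_eq_mul, mul_pow, inv_pow, Real.sq_sqrt hq0.le]
    have h1 := hA (x - ((v ⬝ᵥ x) / q) • v)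
    rw [mulVec_sub, mulVec_smul, hv, smul_zero, sub_zero, ← hsq (x - _), sub_dotProduct,
      dotProduct_sub, dotProduct_sub, smul_dotProduct, smul_dotProduct, dotProduct_smul,
      dotProduct_smul, ← hq, hsq, dotProduct_comm x v] at h1
    simp only [smul_eq_mul] at h1
    have h2 : (v ⬝ᵥ x) / q * ((v ⬝ᵥ x) / q * q) = q⁻¹ * (v ⬝ᵥ x) ^ 2 := by
      field_simp
    have h3 : (v ⬝ᵥ x) / q * (v ⬝ᵥ x) = q⁻¹ * (v ⬝ᵥ x) ^ 2 := by
      field_simp
    rw [h2, h3] at h1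
    linarith

theorem isC_zeroRow (A : Matrix (Fin n) (Fin n) ℝ) (hA : IsC A) (i₀ : Fin n) :
    IsC (Matrix.of fun i j => if i = i₀ then 0 else A i j) := by
  intro x
  refine le_trans (Finset.sum_le_sum fun i _ => ?_) (hA x)
  have : ((Matrix.of fun i j => if i = i₀ then 0 else A i j) *ᵥ x) i =
      if i = i₀ then 0 else (A *ᵥ x) i := by
    by_cases h : i = i₀ <;> simp [mulVec, dotProduct, h]
  rw [this]
  split_ifs
  · rw [zero_pow two_ne_zero]; exact sq_nonneg _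
  · exact le_rfl

/-- If `ξ > 0` and `η` has a zero entry then `val A η ξ < r (n+1)`. -/
theorem gain_zero (hn : 1 ≤ n) (A : Matrix (Fin n) (Fin n) ℝ) (η ξ : Fin n → ℝ) (hA : IsC A)
    (hη : U η) (hξ : U ξ) (hξ0 : ∀ j, 0 < ξ j) (i₀ : Fin n) (hi₀ : η i₀ = 0) :
    val A η ξ < r (n + 1) := by
  set A' : Matrix (Fin n) (Fin n) ℝ := Matrix.of fun i j => if i = i₀ then 0 else A i j with hA'
  obtain ⟨y, hy, h⟩ := exists_row_of_zero A' (isC_zeroRow A hA i₀) i₀ (fun j => by simp [hA'])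
  have h1 := gain_row hn A' η ξ hη hξ hξ0 y hy h
  refine lt_of_le_of_lt (le_of_eq ?_) h1
  unfold val
  refine Finset.sum_congr rfl fun i _ => Finset.sum_congr rfl fun j _ => ?_
  by_cases hi : i = i₀
  · rw [hi, hi₀]; simp
  · simp [hA', hi]

/-- If both vectors have a zero entry the value is at most `r (n-1)`. -/
theorem val_le_prev {m : ℕ} (hm : 1 ≤ m) (A : Matrix (Fin (m + 1)) (Fin (m + 1)) ℝ)
    (η ξ : Fin (m + 1) → ℝ) (hA : IsC A) (hη : U η) (hξ : U ξ) (i₀ j₀ : Fin (m + 1))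
    (hi : η i₀ = 0) (hj : ξ j₀ = 0) : val A η ξ ≤ r m := by
  have h1 : IsC (A.submatrix i₀.succAbove j₀.succAbove) := by
    intro x
    have h := hA (j₀.insertNth 0 x)
    rw [Fin.sum_univ_succAbove _ i₀, Fin.sum_univ_succAbove _ j₀] at h
    simp only [Fin.insertNth_apply_same, Fin.insertNth_apply_succAbove] at h
    have e : ∀ i, (A *ᵥ (j₀.insertNth 0 x)) (i₀.succAbove i) =
        (A.submatrix i₀.succAbove j₀.succAbove *ᵥ x) i := by
      intro i
      rw [mulVec, dotProduct, Fin.sum_univ_succAbove _ j₀]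
      simp [mulVec, dotProduct]
    simp only [e] at h
    nlinarith [sq_nonneg ((A *ᵥ (j₀.insertNth 0 x)) i₀)]
  have h2 : U (η ∘ i₀.succAbove) := by
    refine ⟨fun i => hη.1 _, ?_⟩
    have := hη.2
    rw [Fin.sum_univ_succAbove _ i₀, hi] at this
    simpa using this
  have h3 : U (ξ ∘ j₀.succAbove) := by
    refine ⟨fun i => hξ.1 _, ?_⟩
    have := hξ.2
    rw [Fin.sum_univ_succAbove _ j₀, hj] at this
    simpa using this
  refine le_trans (le_of_eq ?_) ((r_spec hm).1 _ _ _ h1 h2 h3)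
  unfold val
  rw [Fin.sum_univ_succAbove _ i₀]
  simp only [hi, mul_zero, zero_mul, Finset.sum_const_zero, zero_add]
  refine Finset.sum_congr rfl fun i _ => ?_
  rw [Fin.sum_univ_succAbove _ j₀, hj, mul_zero, zero_add]
  rfl

end AddRow

/-! ### The sign lemma -/

theorem exists_signs {P : Type} [Fintype P] [DecidableEq P] (a : P → P → ℝ) :
    ∃ s : P → ℝ, (∀ p, s p = 1 ∨ s p = -1) ∧
      ∑ p, a p p ≤ ∑ p, ∑ q, a p q * s p * s q := by
  suffices h : ∀ T : Finset P, ∃ s : P → ℝ, (∀ p, s p = 1 ∨ s p = -1) ∧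
      ∑ p ∈ T, a p p ≤ ∑ p ∈ T, ∑ q ∈ T, a p q * s p * s q from h Finset.univ
  intro T
  induction T using Finset.induction_on with
  | empty => exact ⟨fun _ => 1, fun _ => Or.inl rfl, by simp⟩
  | insert p₀ T hp ih =>
    obtain ⟨s, hs, hle⟩ := ih
    set g := ∑ q ∈ T, (a p₀ q + a q p₀) * s q with hg
    obtain ⟨σ, hσ, hσg⟩ := exists_sign g
    refine ⟨Function.update s p₀ σ, fun p => ?_, ?_⟩
    · by_cases h : p = p₀
      · rw [h, Function.update_self]; exact hσ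
      · rw [Function.update_of_ne h]; exact hs p
    · have hne : ∀ q ∈ T, Function.update s p₀ σ q = s q := fun q hq =>
        Function.update_of_ne (by rintro rfl; exact hp hq) _ _
      rw [Finset.sum_insert hp, Finset.sum_insert hp, Finset.sum_insert hp]
      have e1 : ∑ q ∈ T, a p₀ q * Function.update s p₀ σ p₀ * Function.update s p₀ σ q =
          σ * ∑ q ∈ T, a p₀ q * s q := by
        rw [Finset.mul_sum]
        refine Finset.sum_congr rfl fun q hq => ?_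
        rw [hne q hq, Function.update_self]; ring
      have e2 : ∑ p ∈ T, ∑ q ∈ insert p₀ T, a p q * Function.update s p₀ σ p *
          Function.update s p₀ σ q = σ * ∑ q ∈ T, a q p₀ * s q +
            ∑ p ∈ T, ∑ q ∈ T, a p q * s p * s q := by
        rw [Finset.mul_sum, ← Finset.sum_add_distrib]
        refine Finset.sum_congr rfl fun p hp' => ?_
        rw [Finset.sum_insert hp, Function.update_self, hne p hp']
        congr 1
        · ring
        · exact Finset.sum_congr rfl fun q hq => by rw [hne q hq]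
      rw [e1, e2, Function.update_self]
      have hσ2 : σ * σ = 1 := by rcases hσ with h | h <;> rw [h] <;> norm_num
      have hg2 : σ * ∑ q ∈ T, a p₀ q * s q + σ * ∑ q ∈ T, a q p₀ * s q = |g| := by
        rw [← hσg, hg, ← mul_add, ← Finset.sum_add_distrib]
        congr 1
        exact Finset.sum_congr rfl fun q _ => by ring
      have h3 : a p₀ p₀ * σ * σ = a p₀ p₀ := by rw [mul_assoc, hσ2, mul_one]
      have := abs_nonneg g
      rw [h3]
      linarith

/-! ### Second-order gain -/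

section Second

variable {n : ℕ}

theorem isC_bord2 (A : Matrix (Fin n) (Fin n) ℝ) (hA : IsC A) (w : Fin n → ℝ) (t ω θ : ℝ)
    (hω : ω = ∑ j, w j ^ 2) (ht : ω * t ^ 2 ≤ 3) (hθ : θ = 1 - ω * t ^ 2 / 2) :
    IsC (bord (Matrix.of fun i j => A i j - t ^ 2 / 2 * (A *ᵥ w) i * w j)
      (fun i => t * θ * (A *ᵥ w) i) (fun j => -(t * θ * w j)) θ) := by
  intro v
  rw [Fintype.sum_option, Fintype.sum_option]
  set x : Fin n → ℝ := fun j => v (some j) with hx
  set τ := v none with hτ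
  set p := ∑ j, w j * x j with hp
  set κ := t * θ * τ - t ^ 2 / 2 * p with hκ
  have e := bord_mulVec (Matrix.of fun i j => A i j - t ^ 2 / 2 * (A *ᵥ w) i * w j)
      (fun i => t * θ * (A *ᵥ w) i) (fun j => -(t * θ * w j)) θ v
  have e1 : ∀ i, (bord (Matrix.of fun i j => A i j - t ^ 2 / 2 * (A *ᵥ w) i * w j)
      (fun i => t * θ * (A *ᵥ w) i) (fun j => -(t * θ * w j)) θ *ᵥ v) (some i) =
      (A *ᵥ fun j => x j + κ * w j) i := by
    intro i
    rw [e.1 i]
    have h1 : (Matrix.of (fun i j => A i j - t ^ 2 / 2 * (A *ᵥ w) i * w j) *ᵥ x) i =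
        (A *ᵥ x) i - t ^ 2 / 2 * (A *ᵥ w) i * p := by
      simp only [mulVec, dotProduct, of_apply, hp, Finset.mul_sum, ← Finset.sum_sub_distrib]
      refine Finset.sum_congr rfl fun j _ => by ring
    have h2 : (A *ᵥ fun j => x j + κ * w j) i = (A *ᵥ x) i + κ * (A *ᵥ w) i := by
      simp only [mulVec, dotProduct, Finset.mul_sum, ← Finset.sum_add_distrib]
      refine Finset.sum_congr rfl fun j _ => by ring
    rw [h1, h2, hκ]; ring
  have e2 : (bord (Matrix.of fun i j => A i j - t ^ 2 / 2 * (A *ᵥ w) i * w j)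
      (fun i => t * θ * (A *ᵥ w) i) (fun j => -(t * θ * w j)) θ *ᵥ v) none =
      θ * τ - t * θ * p := by
    rw [e.2, sub_eq_add_neg, hp]
    congr 1
    simp only [dotProduct, Finset.mul_sum, ← Finset.sum_neg_distrib]
    refine Finset.sum_congr rfl fun j _ => by ring
  simp only [e1, e2]
  have h3 := hA (fun j => x j + κ * w j)
  have h4 : ∑ j, (x j + κ * w j) ^ 2 = ∑ j, x j ^ 2 + 2 * κ * p + κ ^ 2 * ω := by
    rw [hω, hp, Finset.mul_sum, Finset.mul_sum, ← Finset.sum_add_distrib,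
      ← Finset.sum_add_distrib]
    refine Finset.sum_congr rfl fun j _ => by ring
  have hω0 : 0 ≤ ω := by rw [hω]; exact Finset.sum_nonneg fun j _ => sq_nonneg _
  have h5 : 2 * κ * p + κ ^ 2 * ω + (θ * τ - t * θ * p) ^ 2 =
      τ ^ 2 - (ω * t ^ 2) * (3 - ω * t ^ 2) / 4 * (ω * t ^ 2 * τ ^ 2 + t ^ 2 * p ^ 2) := by
    rw [hκ, hθ]; ring
  have h6 : 0 ≤ (ω * t ^ 2) * (3 - ω * t ^ 2) / 4 * (ω * t ^ 2 * τ ^ 2 + t ^ 2 * p ^ 2) := by
    have : 0 ≤ 3 - ω * t ^ 2 := by linarith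
    positivity
  rw [h4] at h3
  linarith

theorem gain2 (A : Matrix (Fin n) (Fin n) ℝ) (η ξ : Fin n → ℝ) (hA : IsC A)
    (hη : U η) (hξ : U ξ) (m : Fin n → Fin n → ℝ) (hm : ∀ i j, m i j = 1 ∨ m i j = -1)
    (hmA : ∀ i j, m i j * A i j = |A i j|) (w c c' : Fin n → ℝ)
    (hc : ∀ i, c i = 1 ∨ c i = -1) (hc' : ∀ i, c' i = 1 ∨ c' i = -1)
    (hQ : 0 < 1 + (∑ i, c i * ((A *ᵥ w) i * η i) - ∑ j, c' j * (w j * ξ j)) -
      (∑ i, ∑ j, m i j * ((A *ᵥ w) i * w j * η i * ξ j)) / 2 - val A η ξ) :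
    val A η ξ < r (n + 1) := by
  set L := ∑ i, c i * ((A *ᵥ w) i * η i) - ∑ j, c' j * (w j * ξ j) with hL
  set D := ∑ i, ∑ j, m i j * ((A *ᵥ w) i * w j * η i * ξ j) with hD
  set ρ := val A η ξ with hρ
  set ω := ∑ j, w j ^ 2 with hω
  have hev : ∀ᶠ t in nhdsWithin (0 : ℝ) (Set.Ioi 0),
      ω * t ^ 2 < 3 ∧ 0 < (1 - ω * t ^ 2 / 2) * (1 + L) - D / 2 - ρ := by
    apply Filter.Eventually.filter_mono nhdsWithin_le_nhds
    have h1 : Filter.Tendsto (fun t : ℝ => ω * t ^ 2) (nhds 0) (nhds (ω * 0 ^ 2)) :=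
      (by fun_prop : Continuous fun t : ℝ => ω * t ^ 2).tendsto 0
    have h2 : Filter.Tendsto (fun t : ℝ => (1 - ω * t ^ 2 / 2) * (1 + L) - D / 2 - ρ) (nhds 0)
        (nhds ((1 - ω * 0 ^ 2 / 2) * (1 + L) - D / 2 - ρ)) :=
      (by fun_prop : Continuous fun t : ℝ => (1 - ω * t ^ 2 / 2) * (1 + L) - D / 2 - ρ).tendsto 0
    refine (h1.eventually (gt_mem_nhds (by norm_num))).and
      (h2.eventually (lt_mem_nhds ?_))
    have : (1 - ω * 0 ^ 2 / 2) * (1 + L) - D / 2 - ρ = 1 + L - D / 2 - ρ := by ring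
    rw [this]; exact hQ
  obtain ⟨t, ⟨ht3, htQ⟩, ht0⟩ := (hev.and (self_mem_nhdsWithin)).exists
  have ht0' : (0 : ℝ) < t := ht0
  set θ := 1 - ω * t ^ 2 / 2 with hθ
  set N := Real.sqrt (1 + t ^ 2) with hN
  have hN0 : 0 < N := Real.sqrt_pos.mpr (by positivity)
  have hN2 : N ^ 2 = 1 + t ^ 2 := Real.sq_sqrt (by positivity)
  have hcs : (1 / N) ^ 2 + (t / N) ^ 2 = 1 := by
    rw [div_pow, div_pow, ← add_div, one_pow, hN2]; exact div_self (by positivity)
  have hU : ∀ ζ : Fin n → ℝ, U ζ → U (vc (t / N) fun i => 1 / N * ζ i) := fun ζ hζ =>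
    U_vc _ _ ζ hζ (by positivity) (by positivity) hcs
  have h1 := val_le_r (n := n + 1) (by omega) (by simp) (by simp) _ _ _
    (isC_bord2 A hA w t ω θ hω ht3.le hθ) (hU η hη) (hU ξ hξ)
  refine lt_of_lt_of_le ?_ h1
  rw [val_bord]
  have hsgn : ∀ (σ a : ℝ), (σ = 1 ∨ σ = -1) → σ * a ≤ |a| := by
    intro σ a hσ
    rcases hσ with h | h <;> rw [h]
    · rw [one_mul]; exact le_abs_self _
    · rw [neg_one_mul]; exact neg_le_abs _
  -- the four pieces
  have p1 : θ * (t ^ 2 / N ^ 2) ≤ |θ| * (t / N) * (t / N) := by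
    have : |θ| * (t / N) * (t / N) = |θ| * (t ^ 2 / N ^ 2) := by ring
    rw [this]
    exact mul_le_mul_of_nonneg_right (le_abs_self _) (by positivity)
  have p2 : -(t ^ 2 / N ^ 2 * θ * ∑ j, c' j * (w j * ξ j)) ≤
      ∑ j, |-(t * θ * w j)| * (t / N) * (1 / N * ξ j) := by
    rw [Finset.mul_sum, ← Finset.sum_neg_distrib]
    refine Finset.sum_le_sum fun j _ => ?_
    have h2 := hsgn (c' j) (-(t * θ * w j)) (hc' j)
    have h3 : 0 ≤ (t / N) * (1 / N * ξ j) := by have := hξ.1 j; positivity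
    calc -(t ^ 2 / N ^ 2 * θ * (c' j * (w j * ξ j)))
        = (c' j * -(t * θ * w j)) * ((t / N) * (1 / N * ξ j)) := by
          field_simp
      _ ≤ |-(t * θ * w j)| * ((t / N) * (1 / N * ξ j)) := mul_le_mul_of_nonneg_right h2 h3
      _ = _ := by ring
  have p3 : t ^ 2 / N ^ 2 * θ * ∑ i, c i * ((A *ᵥ w) i * η i) ≤
      ∑ i, |t * θ * (A *ᵥ w) i| * (1 / N * η i) * (t / N) := by
    rw [Finset.mul_sum]
    refine Finset.sum_le_sum fun i _ => ?_
    have h2 := hsgn (c i) (t * θ * (A *ᵥ w) i) (hc i)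
    have h3 : 0 ≤ (1 / N * η i) * (t / N) := by have := hη.1 i; positivity
    calc t ^ 2 / N ^ 2 * θ * (c i * ((A *ᵥ w) i * η i))
        = (c i * (t * θ * (A *ᵥ w) i)) * ((1 / N * η i) * (t / N)) := by
          field_simp
      _ ≤ |t * θ * (A *ᵥ w) i| * ((1 / N * η i) * (t / N)) := mul_le_mul_of_nonneg_right h2 h3
      _ = _ := by ring
  have p4 : 1 / N ^ 2 * (ρ - t ^ 2 / 2 * D) ≤
      val (Matrix.of fun i j => A i j - t ^ 2 / 2 * (A *ᵥ w) i * w j) (fun i => 1 / N * η i)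
        (fun j => 1 / N * ξ j) := by
    have h2 : ρ - t ^ 2 / 2 * D =
        ∑ i, ∑ j, m i j * (A i j - t ^ 2 / 2 * (A *ᵥ w) i * w j) * (η i * ξ j) := by
      rw [hρ, hD, val, Finset.mul_sum, ← Finset.sum_sub_distrib]
      refine Finset.sum_congr rfl fun i _ => ?_
      rw [Finset.mul_sum, ← Finset.sum_sub_distrib]
      refine Finset.sum_congr rfl fun j _ => ?_
      rw [← hmA i j]; ring
    rw [h2, val, Finset.mul_sum]
    refine Finset.sum_le_sum fun i _ => ?_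
    rw [Finset.mul_sum]
    refine Finset.sum_le_sum fun j _ => ?_
    rw [of_apply]
    have h3 := hsgn (m i j) (A i j - t ^ 2 / 2 * (A *ᵥ w) i * w j) (hm i j)
    have h4 : 0 ≤ 1 / N ^ 2 * (η i * ξ j) := by
      have := hη.1 i; have := hξ.1 j; positivity
    calc 1 / N ^ 2 * (m i j * (A i j - t ^ 2 / 2 * (A *ᵥ w) i * w j) * (η i * ξ j))
        = (m i j * (A i j - t ^ 2 / 2 * (A *ᵥ w) i * w j)) * (1 / N ^ 2 * (η i * ξ j)) := by ring
      _ ≤ |A i j - t ^ 2 / 2 * (A *ᵥ w) i * w j| * (1 / N ^ 2 * (η i * ξ j)) :=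
          mul_le_mul_of_nonneg_right h3 h4
      _ = _ := by ring
  have hfin : ρ < θ * (t ^ 2 / N ^ 2) + -(t ^ 2 / N ^ 2 * θ * ∑ j, c' j * (w j * ξ j)) +
      (t ^ 2 / N ^ 2 * θ * ∑ i, c i * ((A *ᵥ w) i * η i) + 1 / N ^ 2 * (ρ - t ^ 2 / 2 * D)) := by
    have e : θ * (t ^ 2 / N ^ 2) + -(t ^ 2 / N ^ 2 * θ * ∑ j, c' j * (w j * ξ j)) +
      (t ^ 2 / N ^ 2 * θ * ∑ i, c i * ((A *ᵥ w) i * η i) + 1 / N ^ 2 * (ρ - t ^ 2 / 2 * D)) =
      (t ^ 2 * (θ * (1 + L)) + ρ - t ^ 2 / 2 * D) / (1 + t ^ 2) := by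
      rw [hN2, hL]; field_simp; ring
    rw [e, lt_div_iff₀ (by positivity)]
    have : 0 < t ^ 2 * (θ * (1 + L) - D / 2 - ρ) := mul_pos (by positivity) htQ
    nlinarith
  linarith

theorem stationary (A : Matrix (Fin n) (Fin n) ℝ) (η ξ : Fin n → ℝ)
    (hη : U η) (hξ : U ξ) (hmax : ∀ η', U η' → val A η' ξ ≤ val A η ξ) (i : Fin n) :
    ∑ j, |A i j| * ξ j = val A η ξ * η i := by
  set b : Fin n → ℝ := fun i => ∑ j, |A i j| * ξ j with hb
  set ρ := val A η ξ with hρ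
  have hb0 : ∀ i, 0 ≤ b i := fun i =>
    Finset.sum_nonneg fun j _ => mul_nonneg (abs_nonneg _) (hξ.1 j)
  have hval : ∀ η' : Fin n → ℝ, val A η' ξ = ∑ i, b i * η' i := by
    intro η'
    unfold val
    refine Finset.sum_congr rfl fun i _ => ?_
    rw [hb, Finset.sum_mul]
    refine Finset.sum_congr rfl fun j _ => by ring
  have hsq : ∑ i, b i ^ 2 ≤ ρ ^ 2 := by
    set q := ∑ i, b i ^ 2 with hq
    have hq0 : 0 ≤ q := Finset.sum_nonneg fun i _ => sq_nonneg _
    rcases hq0.eq_or_lt with h | h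
    · rw [← h]; positivity
    · have hs := Real.sqrt_pos.mpr h
      have h1 : U fun i => b i / Real.sqrt q := by
        refine ⟨fun i => div_nonneg (hb0 i) hs.le, ?_⟩
        simp only [div_pow]
        rw [← Finset.sum_div, Real.sq_sqrt hq0]
        exact div_self h.ne'
      have h2 := hmax _ h1
      rw [hval] at h2
      have h3 : ∑ i, b i * (b i / Real.sqrt q) = Real.sqrt q := by
        have : ∀ i, b i * (b i / Real.sqrt q) = b i ^ 2 / Real.sqrt q := fun i => by ring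
        simp only [this]
        rw [← Finset.sum_div, ← hq]
        exact Real.div_sqrt
      rw [h3] at h2
      calc q = Real.sqrt q ^ 2 := (Real.sq_sqrt hq0).symm
        _ ≤ ρ ^ 2 := pow_le_pow_left₀ hs.le h2 2
  have h4 : ∑ i, (b i - ρ * η i) ^ 2 ≤ 0 := by
    have : ∑ i, (b i - ρ * η i) ^ 2 = ∑ i, b i ^ 2 - 2 * ρ * ∑ i, b i * η i +
        ρ ^ 2 * ∑ i, η i ^ 2 := by
      rw [Finset.mul_sum, Finset.mul_sum, ← Finset.sum_sub_distrib, ← Finset.sum_add_distrib]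
      refine Finset.sum_congr rfl fun i _ => by ring
    rw [this, ← hval, hη.2, ← hρ]
    nlinarith
  have h5 := (Finset.sum_eq_zero_iff_of_nonneg (fun i _ => sq_nonneg (b i - ρ * η i))).mp
    (le_antisymm h4 (Finset.sum_nonneg fun i _ => sq_nonneg _)) i (Finset.mem_univ i)
  have h6 := pow_eq_zero_iff (two_ne_zero) |>.mp h5
  linarith

/-- the vectors `W_p` -/
noncomputable def Wv (A : Matrix (Fin n) (Fin n) ℝ) (ρ : ℝ) (η ξ : Fin n → ℝ) :
    Fin n ⊕ Fin n → Fin n → ℝ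
  | Sum.inl i, j => A i j / (ρ * η i)
  | Sum.inr k, j => if j = k then -(1 / (ρ * ξ k)) else 0

/-- the vectors `G_p` -/
noncomputable def Gv (A : Matrix (Fin n) (Fin n) ℝ) (η ξ : Fin n → ℝ) :
    Fin n ⊕ Fin n → Fin n → ℝ
  | Sum.inl i, j => η i * A i j
  | Sum.inr k, j => if j = k then -ξ k else 0

theorem second_order (A : Matrix (Fin n) (Fin n) ℝ) (η ξ : Fin n → ℝ) (hA : IsC A)
    (hη : U η) (hξ : U ξ) (hη0 : ∀ i, 0 < η i) (hξ0 : ∀ j, 0 < ξ j) (hiso : Aᵀ * A = 1)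
    (hmax : ∀ (A' : Matrix (Fin n) (Fin n) ℝ) (η' ξ' : Fin n → ℝ), IsC A' → U η' → U ξ' → val A' η' ξ' ≤ val A η ξ) (hn : 1 ≤ n) :
    val A η ξ < r (n + 1) := by
  classical
  have hiso' : A * Aᵀ = 1 := mul_eq_one_comm.mp hiso
  set ρ := val A η ξ with hρ
  have hb1 : ∀ i, ∑ j, |A i j| * ξ j = ρ * η i :=
    stationary A η ξ hη hξ (fun η' h => hmax A η' ξ hA h hξ)
  have hb2 : ∀ j, ∑ i, |A i j| * η i = ρ * ξ j := by
    intro j
    have := stationary Aᵀ ξ η hξ hη (fun ξ' h => by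
      rw [val_transpose, val_transpose]; exact hmax A η ξ' hA hη h) j
    rw [val_transpose] at this
    simpa using this
  have hrow : ∀ i i', ∑ j, A i j * A i' j = if i = i' then 1 else 0 := by
    intro i i'
    have := congrFun (congrFun hiso' i) i'
    rw [Matrix.mul_apply, Matrix.one_apply] at this
    simpa using this
  have hρ0 : 0 < ρ := by
    set i₀ : Fin n := ⟨0, hn⟩
    rcases (val_nonneg (A := A) hη hξ).eq_or_lt with h | h
    · exfalso
      have h1 := hb1 i₀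
      rw [hρ, ← h, zero_mul] at h1
      have h2 := (Finset.sum_eq_zero_iff_of_nonneg (fun j _ =>
        mul_nonneg (abs_nonneg (A i₀ j)) (hξ0 j).le)).mp h1
      have h3 : ∀ j, A i₀ j = 0 := by
        intro j
        have := h2 j (Finset.mem_univ j)
        rcases mul_eq_zero.mp this with h | h
        · exact abs_eq_zero.mp h
        · exact absurd h (hξ0 j).ne'
      have h4 := hrow i₀ i₀
      simp [h3] at h4
    · exact h
  have hρn : ρ ^ 2 ≤ n := by
    have h1 : ∀ i, (ρ * η i) ^ 2 ≤ 1 := by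
      intro i
      rw [← hb1 i]
      calc (∑ j, |A i j| * ξ j) ^ 2 ≤ (∑ j, |A i j| ^ 2) * ∑ j, ξ j ^ 2 :=
            Finset.sum_mul_sq_le_sq_mul_sq _ _ _
        _ = 1 := by
            have := hrow i i
            simp only [if_true] at this
            rw [hξ.2, mul_one]
            rw [← this]
            exact Finset.sum_congr rfl fun j _ => by rw [sq_abs, sq]
    calc ρ ^ 2 = ∑ i, (ρ * η i) ^ 2 := by
          simp only [mul_pow]; rw [← Finset.mul_sum, hη.2, mul_one]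
      _ ≤ ∑ _i : Fin n, (1 : ℝ) := Finset.sum_le_sum fun i _ => h1 i
      _ = n := by simp
  choose m hm hmA using fun i j => exists_sign (A i j)
  set W := Wv A ρ η ξ with hW
  set G := Gv A η ξ with hG
  set a : Fin n ⊕ Fin n → Fin n ⊕ Fin n → ℝ := fun p q => ∑ j, G p j * W q j -
    (∑ i, ∑ j, m i j * ((A *ᵥ W p) i * W q j * η i * ξ j)) / 2 with ha
  have hdiag : ∀ p, a p p = 1 / (2 * ρ) := by
    intro p
    rcases p with i | k
    · have hne := (hη0 i).ne'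
      have h1 : ∑ j, G (Sum.inl i) j * W (Sum.inl i) j = 1 / ρ := by
        have : ∀ j, G (Sum.inl i) j * W (Sum.inl i) j = (A i j * A i j) / ρ := by
          intro j
          simp only [hG, hW, Gv, Wv]
          field_simp
        simp only [this]
        rw [← Finset.sum_div, hrow, if_pos rfl]
      have h2 : ∀ i', (A *ᵥ W (Sum.inl i)) i' = if i' = i then 1 / (ρ * η i) else 0 := by
        intro i'
        have : ∀ j, A i' j * W (Sum.inl i) j = (A i' j * A i j) / (ρ * η i) := by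
          intro j
          simp only [hW, Wv]; ring
        rw [mulVec, dotProduct]
        simp only [this]
        rw [← Finset.sum_div, hrow]
        split_ifs <;> simp
      have h3 : ∑ i', ∑ j, m i' j * ((A *ᵥ W (Sum.inl i)) i' * W (Sum.inl i) j * η i' * ξ j) =
          1 / ρ := by
        rw [Finset.sum_eq_single i]
        · rw [h2, if_pos rfl]
          have : ∀ j, m i j * (1 / (ρ * η i) * W (Sum.inl i) j * η i * ξ j) =
              (|A i j| * ξ j) / (ρ ^ 2 * η i) := by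
            intro j
            simp only [hW, Wv]
            rw [← hmA i j]
            field_simp
          simp only [this]
          rw [← Finset.sum_div, hb1 i]
          field_simp
        · intro i' _ hi'
          simp [h2, hi']
        · intro h; exact absurd (Finset.mem_univ _) h
      rw [ha]
      simp only
      rw [h1, h3]; field_simp; norm_num
    · have hne := (hξ0 k).ne'
      have h1 : ∑ j, G (Sum.inr k) j * W (Sum.inr k) j = 1 / ρ := by
        rw [Finset.sum_eq_single k]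
        · simp only [hG, hW, Gv, Wv, if_true]
          field_simp
        · intro j _ hj
          simp [hG, hW, Gv, Wv, hj]
        · intro h; exact absurd (Finset.mem_univ _) h
      have h2 : ∀ i', (A *ᵥ W (Sum.inr k)) i' = -(A i' k / (ρ * ξ k)) := by
        intro i'
        rw [mulVec, dotProduct, Finset.sum_eq_single k]
        · simp only [hW, Wv, if_true]; ring
        · intro j _ hj
          simp [hW, Wv, hj]
        · intro h; exact absurd (Finset.mem_univ _) h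
      have h3 : ∑ i', ∑ j, m i' j * ((A *ᵥ W (Sum.inr k)) i' * W (Sum.inr k) j * η i' * ξ j) =
          1 / ρ := by
        have : ∀ i', ∑ j, m i' j * ((A *ᵥ W (Sum.inr k)) i' * W (Sum.inr k) j * η i' * ξ j) =
            (|A i' k| * η i') / (ρ ^ 2 * ξ k) := by
          intro i'
          rw [Finset.sum_eq_single k]
          · rw [h2, ← hmA i' k]
            simp only [hW, Wv, if_true]
            field_simp
          · intro j _ hj
            simp [hW, Wv, hj]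
          · intro h; exact absurd (Finset.mem_univ _) h
        simp only [this]
        rw [← Finset.sum_div, hb2 k]
        field_simp
      rw [ha]
      simp only
      rw [h1, h3]; field_simp; norm_num
  obtain ⟨s, hs, hle⟩ := exists_signs a
  have hsum : ∑ p, a p p = n / ρ := by
    simp only [hdiag]
    rw [Finset.sum_const, Finset.card_univ, Fintype.card_sum, Fintype.card_fin, nsmul_eq_mul]
    push_cast
    field_simp
    ring
  rw [hsum] at hle
  set w : Fin n → ℝ := fun j => ∑ p, s p * W p j with hw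
  -- the bilinear expansion
  have hAw : ∀ i, (A *ᵥ w) i = ∑ p, s p * (A *ᵥ W p) i := by
    intro i
    simp only [mulVec, dotProduct, hw, Finset.mul_sum]
    rw [Finset.sum_comm]
    refine Finset.sum_congr rfl fun p _ => Finset.sum_congr rfl fun j _ => by ring
  have hLsum : ∑ i, s (Sum.inl i) * ((A *ᵥ w) i * η i) - ∑ j, s (Sum.inr j) * (w j * ξ j) =
      ∑ p, ∑ q, (∑ j, G p j * W q j) * s p * s q := by
    have h1 : ∀ p, ∑ q, (∑ j, G p j * W q j) * s p * s q = s p * ∑ j, G p j * w j := by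
      intro p
      simp only [hw, Finset.mul_sum, Finset.sum_mul]
      rw [Finset.sum_comm]
      refine Finset.sum_congr rfl fun j _ => Finset.sum_congr rfl fun q _ => by ring
    simp only [h1]
    rw [Fintype.sum_sum_type, sub_eq_add_neg, ← Finset.sum_neg_distrib]
    congr 1
    · refine Finset.sum_congr rfl fun i _ => ?_
      congr 1
      simp only [mulVec, dotProduct, hG, Gv, Finset.sum_mul]
      refine Finset.sum_congr rfl fun j _ => by ring
    · refine Finset.sum_congr rfl fun k _ => ?_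
      have : ∑ j, G (Sum.inr k) j * w j = -ξ k * w k := by
        rw [Finset.sum_eq_single k]
        · simp [hG, Gv]
        · intro j _ hj; simp [hG, Gv, hj]
        · intro h; exact absurd (Finset.mem_univ _) h
      rw [this]; ring
  have hDsum : ∑ i, ∑ j, m i j * ((A *ᵥ w) i * w j * η i * ξ j) =
      ∑ p, ∑ q, (∑ i, ∑ j, m i j * ((A *ᵥ W p) i * W q j * η i * ξ j)) * s p * s q := by
    have h1 : ∀ i j, m i j * ((A *ᵥ w) i * w j * η i * ξ j) =
        ∑ p, ∑ q, m i j * ((A *ᵥ W p) i * W q j * η i * ξ j) * s p * s q := by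
      intro i j
      rw [hAw, hw]
      simp only [Finset.mul_sum, Finset.sum_mul]
      rw [Finset.sum_comm]
      refine Finset.sum_congr rfl fun p _ => Finset.sum_congr rfl fun q _ => by ring
    simp only [h1, Finset.sum_mul]
    rw [Finset.sum_congr rfl fun i _ => Finset.sum_comm]
    rw [Finset.sum_comm]
    refine Finset.sum_congr rfl fun p _ => ?_
    rw [Finset.sum_congr rfl fun i _ => Finset.sum_comm]
    rw [Finset.sum_comm]
  refine gain2 A η ξ hA hη hξ m hm hmA w (fun i => s (Sum.inl i)) (fun j => s (Sum.inr j))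
    (fun i => hs _) (fun j => hs _) ?_
  rw [hLsum, hDsum]
  have hexp : ∑ p, ∑ q, a p q * s p * s q = ∑ p, ∑ q, (∑ j, G p j * W q j) * s p * s q -
      (∑ p, ∑ q, (∑ i, ∑ j, m i j * ((A *ᵥ W p) i * W q j * η i * ξ j)) * s p * s q) / 2 := by
    rw [Finset.sum_div, ← Finset.sum_sub_distrib]
    refine Finset.sum_congr rfl fun p _ => ?_
    rw [Finset.sum_div, ← Finset.sum_sub_distrib]
    refine Finset.sum_congr rfl fun q _ => ?_
    rw [ha]; ring
  rw [hexp] at hle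
  have h9 : ρ ≤ n / ρ := by
    rw [le_div_iff₀ hρ0]; nlinarith
  linarith

/-- From equality of norms to orthogonality. -/
theorem iso_of (A : Matrix (Fin n) (Fin n) ℝ)
    (h : ∀ x : Fin n → ℝ, ∑ i, (A *ᵥ x) i ^ 2 = ∑ j, x j ^ 2) : Aᵀ * A = 1 := by
  have hsq : ∀ x : Fin n → ℝ, x ⬝ᵥ x = ∑ j, x j ^ 2 := fun x => by simp [dotProduct, sq]
  have h1 : ∀ x z : Fin n → ℝ, (A *ᵥ x) ⬝ᵥ (A *ᵥ z) = x ⬝ᵥ z := by
    intro x z
    have e1 := h (x + z)
    have e2 := h x
    have e3 := h z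
    rw [← hsq, ← hsq] at e1 e2 e3
    rw [mulVec_add, add_dotProduct, dotProduct_add, dotProduct_add, add_dotProduct,
      dotProduct_add, dotProduct_add, dotProduct_comm (A *ᵥ z) (A *ᵥ x), dotProduct_comm z x] at e1
    linarith
  ext i j
  have h2 := h1 (Pi.single i 1) (Pi.single j 1)
  rw [mulVec_single_one, mulVec_single_one] at h2
  rw [Matrix.mul_apply, Matrix.one_apply]
  have h3 : ∑ k, Aᵀ i k * A k j = A.col i ⬝ᵥ A.col j := by
    simp [dotProduct, Matrix.col]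
  rw [h3, h2]
  simp [Pi.single_apply, eq_comm]

theorem step (hn : 1 ≤ n) (hprev : ∀ m, n = m + 1 → 1 ≤ m → r m < r n) : r n < r (n + 1) := by
  classical
  by_contra hcon
  push Not at hcon
  obtain ⟨A, η, ξ, hA, hη, hξ, hval⟩ := (r_spec hn).2
  have hbad : val A η ξ < r (n + 1) → False := fun h => by rw [hval] at h; linarith
  have hmax : ∀ (A' : Matrix (Fin n) (Fin n) ℝ) (η' ξ' : Fin n → ℝ), IsC A' → U η' → U ξ' → val A' η' ξ' ≤ val A η ξ := by
    intro A' η' ξ' h1 h2 h3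
    rw [hval]; exact (r_spec hn).1 A' η' ξ' h1 h2 h3
  by_cases hη0 : ∀ i, 0 < η i
  · by_cases hξ0 : ∀ j, 0 < ξ j
    · by_cases hiso : ∀ x : Fin n → ℝ, ∑ i, (A *ᵥ x) i ^ 2 = ∑ j, x j ^ 2
      · exact hbad (second_order A η ξ hA hη hξ hη0 hξ0 (iso_of A hiso) hmax hn)
      · push Not at hiso
        obtain ⟨u, hu⟩ := hiso
        obtain ⟨y, hy, h⟩ := exists_row A hA u (lt_of_le_of_ne (hA u) hu)
        exact hbad (gain_row hn A η ξ hη hξ hξ0 y hy h)
    · push Not at hξ0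
      obtain ⟨j₀, hj₀⟩ := hξ0
      have hj : ξ j₀ = 0 := le_antisymm hj₀ (hξ.1 j₀)
      apply hbad
      rw [← val_transpose]
      exact gain_zero hn Aᵀ ξ η hA.transpose hξ hη hη0 j₀ hj
  · push Not at hη0
    obtain ⟨i₀, hi₀⟩ := hη0
    have hi : η i₀ = 0 := le_antisymm hi₀ (hη.1 i₀)
    by_cases hξ0 : ∀ j, 0 < ξ j
    · exact hbad (gain_zero hn A η ξ hA hη hξ hξ0 i₀ hi)
    · push Not at hξ0
      obtain ⟨j₀, hj₀⟩ := hξ0
      have hj : ξ j₀ = 0 := le_antisymm hj₀ (hξ.1 j₀)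
      obtain ⟨m, rfl⟩ : ∃ m, n = m + 1 := ⟨n - 1, by omega⟩
      by_cases hm : 1 ≤ m
      · have h1 := val_le_prev hm A η ξ hA hη hξ i₀ j₀ hi hj
        rw [hval] at h1
        exact absurd h1 (not_le.mpr (hprev m rfl hm))
      · have hm0 : m = 0 := by omega
        subst hm0
        have h1 := hη.2
        rw [Fin.sum_univ_succ] at h1
        have h2 : i₀ = 0 := Fin.ext (by have := i₀.isLt; simp)
        rw [h2] at hi
        rw [hi] at h1
        simp at h1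

end Second

/-- **Full affirmative answer to Q2.**  The sequence `(r_n)_{n ≥ 1}` is strictly increasing. -/
theorem result (n : ℕ) (hn : 1 ≤ n) : r n < r (n + 1) := by
  induction n with
  | zero => omega
  | succ n ih =>
    refine step hn fun m hm hm1 => ?_
    obtain rfl : n = m := by omega
    exact ih hm1

end Pool.Agent.Results.MP_c77999_an.StrictlyIncreasing
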